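import Pool.Agent.P8H98.DF.Stm

/-!
Project DF (helper98), package GEO: the local rule on `ℤ⁴` (adapted from N953/EG/Geo3.lean).
-/

set_option autoImplicit false

namespace Pool.Agent.P8H86.DF

open Finset Pool.Agent.P8H98.DF Pool.Agent.N929.EG

noncomputable section

/-- the boxes -/
def bx4 (x : Z4) (ρ : ℕ) : Finset Z4 :=
  Icc (x.1 - ρ) (x.1 + ρ) ×ˢ (Icc (x.2.1 - ρ) (x.2.1 + ρ) ×ˢ
    (Icc (x.2.2.1 - ρ) (x.2.2.1 + ρ) ×ˢ Icc (x.2.2.2 - ρ) (x.2.2.2 + ρ)))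

theorem mem_bx4 (x y : Z4) (ρ : ℕ) : y ∈ bx4 x ρ ↔ (x.1 - ρ ≤ y.1 ∧ y.1 ≤ x.1 + ρ) ∧
    (x.2.1 - ρ ≤ y.2.1 ∧ y.2.1 ≤ x.2.1 + ρ) ∧ (x.2.2.1 - ρ ≤ y.2.2.1 ∧ y.2.2.1 ≤ x.2.2.1 + ρ) ∧
    (x.2.2.2 - ρ ≤ y.2.2.2 ∧ y.2.2.2 ≤ x.2.2.2 + ρ) := by
  unfold bx4
  rw [mem_product, mem_product, mem_product, mem_Icc, mem_Icc, mem_Icc, mem_Icc]

theorem card_bx4 (x : Z4) (ρ : ℕ) : (bx4 x ρ).card = (2 * ρ + 1) ^ 4 := by
  have h : ∀ a : ℤ, (Icc (a - (ρ : ℤ)) (a + ρ)).card = 2 * ρ + 1 := by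
    intro a
    rw [Int.card_Icc]
    omega
  unfold bx4
  rw [card_product, card_product, card_product, h, h, h, h]
  ring

/-- the geometry -/
def X4 : Geo Z4 where
  o := 0
  bx := bx4
  g ρ := (2 * ρ + 1) ^ 4
  card_bx x ρ := (card_bx4 x ρ).le
  self x ρ := by
    rw [mem_bx4]
    omega
  symm x y ρ h := by
    rw [mem_bx4] at h ⊢
    omega
  mono x ρ ρ' h y hy := by
    rw [mem_bx4] at hy ⊢
    omega
  tri x y z ρ ρ' h1 h2 := by
    rw [mem_bx4] at h1 h2 ⊢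
    push_cast
    omega

theorem vec_bd (d : Dir) : (-1 ≤ (vec d).1 ∧ (vec d).1 ≤ 1) ∧
    (-1 ≤ (vec d).2.1 ∧ (vec d).2.1 ≤ 1) ∧ (-1 ≤ (vec d).2.2.1 ∧ (vec d).2.2.1 ≤ 1) ∧
    (-1 ≤ (vec d).2.2.2 ∧ (vec d).2.2.2 ≤ 1) := by
  cases d <;> simp [vec]

theorem vec_ne (d : Dir) : vec d ≠ 0 := by
  cases d <;> decide

theorem vec_sub {d e : Dir} (h : perp d e) : vec d ≠ vec e ∧ vec d + vec e ≠ 0 := by
  cases d <;> cases e <;> first
    | exact absurd rfl h
    | (constructor <;> decide)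

theorem neg_vec (d : Dir) : ∃ d' : Dir, vec d' = -vec d := by
  cases d
  · exact ⟨.xm, by decide⟩
  · exact ⟨.xp, by decide⟩
  · exact ⟨.ym, by decide⟩
  · exact ⟨.yp, by decide⟩
  · exact ⟨.zm, by decide⟩
  · exact ⟨.zp, by decide⟩
  · exact ⟨.tm, by decide⟩
  · exact ⟨.tp, by decide⟩

/-- the rule -/
def R4 : Rul X4 A4 where
  T := T4
  ρ := 4
  k := 2
  s := 2
  hs := by norm_num
  step := by
    rintro p q ⟨d, rfl⟩
    change p + vec d ∈ bx4 p 1
    rw [mem_bx4]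
    have h := vec_bd d
    simp only [Prod.fst_add, Prod.snd_add]
    push_cast
    omega
  pair := by
    rintro U U' ⟨p, d, e, h, rfl, rfl⟩
    obtain ⟨h1, h2⟩ := vec_sub h
    have n0 : p ≠ p + vec e := fun hc => vec_ne e (by simpa using hc.symm)
    have n1 : p ≠ p + vec d := fun hc => vec_ne d (by simpa using hc.symm)
    have n2 : p ≠ p + vec d + vec e := by
      intro hc
      rw [add_assoc] at hc
      exact h2 (by simpa using hc.symm)
    have n3 : p + vec d ≠ p + vec d + vec e := fun hc => vec_ne e (by simpa using hc.symm)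
    have n4 : p + vec d ≠ p + vec e := fun hc => h1 (add_left_cancel hc)
    have n5 : p + vec d + vec e ≠ p + vec e := by
      intro hc
      rw [add_assoc] at hc
      have h3 := add_left_cancel hc
      exact vec_ne d (by simpa using h3)
    refine ⟨⟨p, p + vec e, [], [p + vec d, p + vec d + vec e], rfl, rfl, by simp, ?_⟩, ?_, ?_, ?_, ?_⟩
    · intro x hx
      simp only [List.mem_cons, List.not_mem_nil, or_false] at hx
      simp only [List.mem_cons, List.not_mem_nil, or_false, not_or]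
      rcases hx with rfl | rfl
      · exact ⟨n1.symm, n4⟩
      · exact ⟨n2.symm, n5⟩
    · simp only [List.nodup_cons, List.mem_cons, List.not_mem_nil, or_false, not_false_eq_true,
        List.nodup_nil, and_true]
      exact n0
    · simp only [List.nodup_cons, List.mem_cons, List.not_mem_nil, or_false, not_false_eq_true,
        List.nodup_nil, and_true, not_or]
      exact ⟨⟨n1, n2, n0⟩, ⟨n3, n4⟩, n5⟩
    · simp only [List.isChain_cons_cons, List.isChain_singleton, and_true]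
      exact ⟨e, rfl⟩
    · simp only [List.isChain_cons_cons, List.isChain_singleton, and_true]
      refine ⟨⟨d, rfl⟩, ⟨e, rfl⟩, ?_⟩
      obtain ⟨d', hd'⟩ := neg_vec d
      refine ⟨d', ?_⟩
      rw [hd']
      abel
  len := by
    rintro U U' ⟨p, d, e, h, rfl, rfl⟩
    exact ⟨rfl, rfl⟩
  loc := by
    rintro U U' ⟨p, d, e, h, rfl, rfl⟩ x hx y hy
    change y ∈ bx4 x 4
    rw [mem_bx4]
    have hd := vec_bd d
    have he := vec_bd e
    have key : ∀ z : Z4, z ∈ [p, p + vec e] ++ [p, p + vec d, p + vec d + vec e, p + vec e] →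
        (p.1 - 2 ≤ z.1 ∧ z.1 ≤ p.1 + 2) ∧ (p.2.1 - 2 ≤ z.2.1 ∧ z.2.1 ≤ p.2.1 + 2) ∧
          (p.2.2.1 - 2 ≤ z.2.2.1 ∧ z.2.2.1 ≤ p.2.2.1 + 2) ∧
          (p.2.2.2 - 2 ≤ z.2.2.2 ∧ z.2.2.2 ≤ p.2.2.2 + 2) := by
      intro z hz
      simp only [List.cons_append, List.nil_append, List.mem_cons, List.not_mem_nil,
        or_false] at hz
      rcases hz with rfl | rfl | rfl | rfl | rfl | rfl <;>
        (try simp only [Prod.fst_add, Prod.snd_add]) <;> omega
    have k1 := key x hx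
    have k2 := key y hy
    push_cast
    omega

theorem geo : S_GEO := ⟨X4, R4, rfl, rfl, rfl⟩

end

end Pool.Agent.P8H86.DF
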