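import Pool.Agent.P8H98.DF.Stm

/-!
Project DF (helper98), package WALKS: adapted from H246KN/WALKS.lean.
-/

set_option autoImplicit false

namespace Pool.Agent.P8H86.DF

open Finset Filter Topology
open scoped Classical
open Pool.Agent.P8H98.DF

namespace WALKS

theorem W_succ (N : ℕ) : W (N + 1) = (W N ×ˢ (univ : Finset Dir)).image (fun q => q.2 :: q.1) := by
  ext w
  rw [mem_W, mem_image]
  constructor
  · intro h
    cases w with
    | nil => simp at h
    | cons v w =>
      refine ⟨(w, v), ?_, rfl⟩
      rw [mem_product]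
      exact ⟨mem_W.2 (by simpa using h), mem_univ _⟩
  · rintro ⟨q, hq, rfl⟩
    rw [mem_product] at hq
    have := mem_W.1 hq.1
    simp [this]

theorem sum_W_succ (N : ℕ) (f : List Dir → ℝ) :
    ∑ w ∈ W (N + 1), f w = ∑ w ∈ W N, ∑ v : Dir, f (v :: w) := by
  rw [W_succ, sum_image, sum_product]
  intro x _ y _ hxy
  simp only [List.cons.injEq] at hxy
  exact Prod.ext hxy.2 hxy.1

theorem vec_ne_zero (v : Dir) : vec v ≠ 0 := by cases v <;> decide

theorem eq_neg_of_add (a b : Dir) (h : vec a + vec b = 0) : b = neg a := by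
  apply vec_inj
  rw [vec_neg]
  exact (neg_eq_of_add_eq_zero_right h).symm

theorem vec_add_neg (a : Dir) : vec a + vec (neg a) = 0 := by rw [vec_neg]; simp

theorem neg_ne (b : Dir) : b ≠ neg b := by cases b <;> decide

theorem not_perp_neg (b : Dir) : ¬ perp (neg b) b := by cases b <;> decide

theorem path_cons_pos (w : List Dir) : path w = pos w :: (path w).tail := by
  cases w <;> rfl

theorem mem_Jc {w : List Dir} {v : Dir} : v ∈ Jc w ↔ pos w + vec v ∈ (path w).tail.tail := by
  unfold Jc
  simp

theorem saw_cons (v b : Dir) (w : List Dir) :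
    SAW (v :: b :: w) ↔ SAW (b :: w) ∧ (v ≠ neg b ∧ v ∉ Jc (b :: w)) := by
  unfold SAW
  have h1 : path (v :: b :: w) = (pos (b :: w) + vec v) :: path (b :: w) := rfl
  rw [h1, List.nodup_cons, mem_Jc]
  have h2 : path (b :: w) = pos (b :: w) :: pos w :: (path w).tail := by
    conv_lhs => rw [path, path_cons_pos w]
    rfl
  have h3 : (path (b :: w)).tail.tail = (path w).tail := by rw [h2]; rfl
  rw [h3]
  have h4 : pos (b :: w) + vec v ∈ path (b :: w) ↔
      (v = neg b ∨ pos (b :: w) + vec v ∈ (path w).tail) := by
    rw [h2]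
    simp only [List.mem_cons]
    constructor
    · rintro (h | h | h)
      · exact absurd (add_eq_left.1 h) (vec_ne_zero v)
      · left
        apply eq_neg_of_add
        have : pos w + (vec b + vec v) = pos w := by
          rw [← add_assoc]; exact h
        exact add_eq_left.1 this
      · exact Or.inr h
    · rintro (h | h)
      · right; left
        subst h
        show pos w + vec b + vec (neg b) = pos w
        rw [add_assoc, vec_add_neg, add_zero]
      · exact Or.inr (Or.inr h)
  rw [h4]
  tauto

/-- the hypotheses of the finite inequality -/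
theorem hyps (b : Dir) (w : List Dir) (h : SAW (b :: w)) :
    (w.getD 0 b) ≠ neg b ∧ neg b ∉ Jc (b :: w) ∧ b ∉ Jc w ∧ neg (w.getD 0 b) ∉ Jc w := by
  unfold SAW at h
  have hw : (path w).Nodup ∧ pos w + vec b ∉ path w := by
    have : path (b :: w) = (pos w + vec b) :: path w := rfl
    rw [this, List.nodup_cons] at h
    exact ⟨h.2, h.1⟩
  have hw2 : pos w ∉ (path w).tail := by
    have := hw.1
    rw [path_cons_pos w, List.nodup_cons] at this
    exact this.1
  refine ⟨?_, ?_, ?_, ?_⟩
  · cases w with
    | nil => exact neg_ne b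
    | cons p w1 =>
      show p ≠ neg b
      rintro rfl
      apply hw.2
      have : pos (neg b :: w1) + vec b = pos w1 := by
        show pos w1 + vec (neg b) + vec b = pos w1
        rw [add_assoc, add_comm (vec (neg b)), vec_add_neg, add_zero]
      rw [this]
      show pos w1 ∈ (pos w1 + vec (neg b)) :: path w1
      exact List.mem_cons_of_mem _ (pos_mem_path w1)
  · rw [mem_Jc]
    have h1 : (path (b :: w)).tail.tail = (path w).tail := rfl
    have h2 : pos (b :: w) + vec (neg b) = pos w := by
      show pos w + vec b + vec (neg b) = pos w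
      rw [add_assoc, vec_add_neg, add_zero]
    rw [h1, h2]
    exact hw2
  · rw [mem_Jc]
    intro h1
    exact hw.2 (List.mem_of_mem_tail (List.mem_of_mem_tail h1))
  · cases w with
    | nil => rw [mem_Jc]; simp [path]
    | cons p w1 =>
      rw [mem_Jc]
      have h1 : (path (p :: w1)).tail.tail = (path w1).tail := rfl
      have h2 : pos (p :: w1) + vec (neg ((p :: w1).getD 0 b)) = pos w1 := by
        show pos w1 + vec p + vec (neg p) = pos w1
        rw [add_assoc, vec_add_neg, add_zero]
      rw [h1, h2]
      have : (path w1).Nodup := by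
        have h3 := hw.1
        have h4 : path (p :: w1) = (pos w1 + vec p) :: path w1 := rfl
        rw [h4, List.nodup_cons] at h3
        exact h3.2
      rw [path_cons_pos w1, List.nodup_cons] at this
      exact this.1

theorem bump_succ (v : Dir) (w : List Dir) (j : ℕ) : bump (v :: w) (j + 1) ↔ bump w j := by
  unfold bump
  simp only [List.length_cons]
  have h1 : (v :: w).getD (j + 1) .xp = w.getD j .xp := rfl
  have h2 : (v :: w).getD (j + 1 + 2) .xp = w.getD (j + 2) .xp := rfl
  have h3 : (v :: w).getD (j + 1 + 1) .xp = w.getD (j + 1) .xp := rfl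
  rw [h1, h2, h3]
  constructor
  · rintro ⟨a, b, c⟩; exact ⟨by omega, b, c⟩
  · rintro ⟨a, b, c⟩; exact ⟨by omega, b, c⟩

theorem bump_zero (v b : Dir) (w : List Dir) :
    bump (v :: b :: w) 0 ↔ (v = neg (w.getD 0 b) ∧ perp v b) := by
  unfold bump
  cases w with
  | nil =>
    constructor
    · rintro ⟨h, _⟩
      simp at h
    · rintro ⟨h, h'⟩
      have h2 : v = neg b := h
      subst h2
      exact absurd h' (not_perp_neg b)
  | cons p w1 =>
    constructor
    · rintro ⟨_, h, h'⟩
      exact ⟨h, h'⟩
    · rintro ⟨h, h'⟩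
      exact ⟨by simp, h, h'⟩

theorem bu_cons (v : Dir) (w : List Dir) :
    bu (v :: w) = bu w + (if bump (v :: w) 0 then 1 else 0) := by
  have h1 : bumps (v :: w) = ((bumps w).image Nat.succ) ∪ (if bump (v :: w) 0 then {0} else ∅) := by
    ext j
    rw [mem_bumps, mem_union, mem_image]
    cases j with
    | zero =>
      constructor
      · intro h; right; rw [if_pos h]; simp
      · rintro (⟨a, _, ha⟩ | h)
        · simp at ha
        · by_contra hb
          rw [if_neg hb] at h
          simp at h
    | succ j =>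
      rw [bump_succ]
      constructor
      · intro h; left; exact ⟨j, mem_bumps.2 h, rfl⟩
      · rintro (⟨a, ha, haj⟩ | h)
        · have : a = j := by simpa using haj
          subst this
          exact mem_bumps.1 ha
        · split_ifs at h <;> simp at h
  unfold bu
  rw [h1, card_union_of_disjoint, card_image_of_injective _ Nat.succ_injective]
  · split_ifs <;> simp
  · rw [disjoint_left]
    intro j hj hj'
    rw [mem_image] at hj
    obtain ⟨a, _, rfl⟩ := hj
    split_ifs at hj' <;> simp at hj'

theorem Hx_cons (v b : Dir) (w : List Dir) (hv : v ≠ neg b) :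
    Hx (v :: b :: w) = Hs b v (v ∈ Jc w ∨ v = neg (w.getD 0 b))
      ((Jc (b :: w)).filter (fun j => perp j v)).card := by
  have h0 : Hx (v :: b :: w) = Hs b v (neg b ∈ Jc (v :: b :: w))
      ((Jc (b :: w)).filter (fun j => perp j v)).card := rfl
  rw [h0]
  unfold Hs
  by_cases hbv : b = v
  · rw [if_pos hbv, if_pos hbv]
  · rw [if_neg hbv, if_neg hbv]
    have key : neg b ∈ Jc (v :: b :: w) ↔ (v ∈ Jc w ∨ v = neg (w.getD 0 b)) := by
      rw [mem_Jc, mem_Jc]
      have h1 : (path (v :: b :: w)).tail.tail = path w := rfl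
      have h2 : pos (v :: b :: w) + vec (neg b) = pos w + vec v := by
        show pos w + vec b + vec v + vec (neg b) = pos w + vec v
        rw [vec_neg]; abel
      rw [h1, h2]
      cases w with
      | nil =>
        simp only [path, pos, List.tail_cons, List.tail_nil, List.not_mem_nil, false_or,
          List.mem_singleton, zero_add]
        constructor
        · intro h; exact absurd h (vec_ne_zero v)
        · intro h; exact absurd h hv
      | cons p w1 =>
        have h3 : path (p :: w1) = (pos (p :: w1)) :: pos w1 :: (path w1).tail := by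
          conv_lhs => rw [path, path_cons_pos w1]
          rfl
        rw [h3]
        simp only [List.mem_cons, List.tail_cons]
        constructor
        · rintro (h | h | h)
          · exact absurd (add_eq_left.1 h) (vec_ne_zero v)
          · right
            apply eq_neg_of_add
            have : pos w1 + (vec p + vec v) = pos w1 := by
              rw [← add_assoc]; exact h
            exact add_eq_left.1 this
          · exact Or.inl h
        · rintro (h | h)
          · exact Or.inr (Or.inr h)
          · right; left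
            have h' : v = neg p := h
            subst h'
            show pos w1 + vec p + vec (neg p) = pos w1
            rw [add_assoc, vec_add_neg, add_zero]
    by_cases hk : neg b ∈ Jc (v :: b :: w)
    · rw [if_pos hk, if_pos (key.1 hk)]
    · rw [if_neg hk, if_neg (fun h => hk (key.2 h))]

/-- the weight -/
noncomputable def wt (w : List Dir) : ℝ :=
  (26 / 25 : ℝ) ^ (Gx w) * (1 / 1000 : ℝ) ^ (bu w) * Hx w

theorem wt_cons (v b : Dir) (w : List Dir) (hv : v ≠ neg b) :
    wt (v :: b :: w) = ((26 / 25 : ℝ) ^ (Gx (b :: w)) * (1 / 1000 : ℝ) ^ (bu (b :: w))) *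
      ((26 / 25 : ℝ) ^ (e0 (w.getD 0 b) b (Jc (b :: w)) (Jc w) v) *
        (if v = neg (w.getD 0 b) ∧ perp v b then (1 / 1000 : ℝ) else 1) *
        Hs b v (v ∈ Jc w ∨ v = neg (w.getD 0 b))
          ((Jc (b :: w)).filter (fun j => perp j v)).card) := by
  unfold wt
  rw [Hx_cons v b w hv, bu_cons]
  have h1 : Gx (v :: b :: w) = Gx (b :: w) + e0 (w.getD 0 b) b (Jc (b :: w)) (Jc w) v := rfl
  rw [h1, zpow_add₀ (by norm_num)]
  by_cases hb : bump (v :: b :: w) 0
  · rw [if_pos hb, if_pos ((bump_zero v b w).1 hb), pow_add, pow_one]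
    ring
  · rw [if_neg hb, if_neg (fun h => hb ((bump_zero v b w).2 h)), pow_add, pow_zero]
    ring

theorem step (hfin : S_FIN) (b : Dir) (w : List Dir) (h : SAW (b :: w)) :
    ∑ v ∈ (univ : Finset Dir).filter (fun v => SAW (v :: b :: w)), wt (v :: b :: w) ≤
      21 / 4 * wt (b :: w) := by
  obtain ⟨h1, h2, h3, h4⟩ := hyps b w h
  have hf := hfin (w.getD 0 b) b (Jc (b :: w)) (Jc w) h1 h2 h3 h4
  have hset : (univ : Finset Dir).filter (fun v => SAW (v :: b :: w)) =
      (univ : Finset Dir).filter (fun v => v ≠ neg b ∧ v ∉ Jc (b :: w)) := by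
    apply filter_congr
    intro v _
    rw [saw_cons]
    exact ⟨fun hh => hh.2, fun hh => ⟨h, hh⟩⟩
  rw [hset]
  have hsum : ∑ v ∈ (univ : Finset Dir).filter (fun v => v ≠ neg b ∧ v ∉ Jc (b :: w)),
      wt (v :: b :: w) = ((26 / 25 : ℝ) ^ (Gx (b :: w)) * (1 / 1000 : ℝ) ^ (bu (b :: w))) *
      ∑ v ∈ (univ : Finset Dir).filter (fun v => v ≠ neg b ∧ v ∉ Jc (b :: w)),
      ((26 / 25 : ℝ) ^ (e0 (w.getD 0 b) b (Jc (b :: w)) (Jc w) v) *
        (if v = neg (w.getD 0 b) ∧ perp v b then (1 / 1000 : ℝ) else 1) *
        Hs b v (v ∈ Jc w ∨ v = neg (w.getD 0 b))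
          ((Jc (b :: w)).filter (fun j => perp j v)).card) := by
    rw [mul_sum]
    apply sum_congr rfl
    intro v hv
    rw [mem_filter] at hv
    exact wt_cons v b w hv.2.1
  rw [hsum]
  have hH : Hx (b :: w) = Hs (w.getD 0 b) b (neg (w.getD 0 b) ∈ Jc (b :: w))
      ((Jc w).filter (fun j => perp j b)).card := rfl
  have hpos : 0 ≤ (26 / 25 : ℝ) ^ (Gx (b :: w)) * (1 / 1000 : ℝ) ^ (bu (b :: w)) := by positivity
  calc _ ≤ ((26 / 25 : ℝ) ^ (Gx (b :: w)) * (1 / 1000 : ℝ) ^ (bu (b :: w))) *
        (21 / 4 * Hs (w.getD 0 b) b (neg (w.getD 0 b) ∈ Jc (b :: w))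
          ((Jc w).filter (fun j => perp j b)).card) := mul_le_mul_of_nonneg_left hf hpos
    _ = 21 / 4 * wt (b :: w) := by
        unfold wt
        rw [hH]
        ring

theorem main (hfin : S_FIN) (N : ℕ) :
    ∑ w ∈ (W (N + 1)).filter SAW, wt w ≤ 7408 * (21 / 4 : ℝ) ^ N := by
  induction N with
  | zero =>
    rw [sum_filter, sum_W_succ]
    have h0 : W 0 = {[]} := by
      ext w; rw [mem_W, mem_singleton, List.length_eq_zero_iff]
    rw [h0, sum_singleton]
    have h1 : ∀ v : Dir, (if SAW [v] then wt [v] else 0) ≤ 926 := by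
      intro v
      have hJ : Jc ([] : List Dir) = ∅ := by
        ext d; rw [mem_Jc]; simp [path]
      have h2 : wt [v] = 926 := by
        unfold wt
        have hb : bu [v] = 0 := by
          unfold bu
          rw [card_eq_zero]
          ext j
          rw [mem_bumps]
          unfold bump
          simp
        rw [hb]
        have hG : Gx [v] = 0 := rfl
        have hHx : Hx [v] = Hs v v (neg v ∈ Jc [v]) ((Jc []).filter (fun j => perp j v)).card := rfl
        rw [hG, hHx, hJ]
        unfold Hs
        simp
      rw [h2]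
      split_ifs <;> norm_num
    calc ∑ v : Dir, (if SAW [v] then wt [v] else 0) ≤ ∑ v : Dir, (926 : ℝ) :=
          sum_le_sum (fun v _ => h1 v)
      _ = 7408 * (21 / 4 : ℝ) ^ 0 := by
          rw [sum_const, card_univ]
          have : Fintype.card Dir = 8 := rfl
          rw [this]; norm_num
  | succ N ih =>
    have h1 : ∑ w ∈ (W (N + 1 + 1)).filter SAW, wt w =
        ∑ w ∈ (W (N + 1)).filter SAW,
          ∑ v ∈ (univ : Finset Dir).filter (fun v => SAW (v :: w)), wt (v :: w) := by
      rw [sum_filter, sum_W_succ, sum_filter]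
      apply sum_congr rfl
      intro w hw
      rw [mem_W] at hw
      cases w with
      | nil => simp at hw
      | cons b w =>
        split_ifs with hs
        · rw [sum_filter]
        · apply sum_eq_zero
          intro v _
          rw [if_neg]
          rw [saw_cons]
          exact fun hh => hs hh.1
    rw [h1]
    calc ∑ w ∈ (W (N + 1)).filter SAW,
          ∑ v ∈ (univ : Finset Dir).filter (fun v => SAW (v :: w)), wt (v :: w)
        ≤ ∑ w ∈ (W (N + 1)).filter SAW, 21 / 4 * wt w := by
          apply sum_le_sum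
          intro w hw
          rw [mem_filter, mem_W] at hw
          cases w with
          | nil => simp at hw
          | cons b w => exact step hfin b w hw.2
      _ = 21 / 4 * ∑ w ∈ (W (N + 1)).filter SAW, wt w := by rw [mul_sum]
      _ ≤ 21 / 4 * (7408 * (21 / 4 : ℝ) ^ N) := by
          apply mul_le_mul_of_nonneg_left ih (by norm_num)
      _ = 7408 * (21 / 4 : ℝ) ^ (N + 1) := by rw [pow_succ]; ring

end WALKS

theorem walks : S_WALKS := by
  intro hfin N hN
  obtain ⟨M, rfl⟩ : ∃ M, N = M + 1 := ⟨N - 1, by omega⟩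
  have h := WALKS.main hfin M
  rw [Nat.add_sub_cancel]
  exact h

end Pool.Agent.P8H86.DF
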